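import Mathlib
import Pool.Agent.H13.Heis

open Pool.Agent.H13.Supp Pool.Agent.H13.Heis

namespace Pool.Agent.Results.MP_9d0418_gt.Grp

theorem result : ∃ (G : Type) (_ : Group G), FDC G ∧ ¬ SigmaDiscrete (semiZariski G) Set.univ :=
  ⟨H, inferInstance, fdc, not_sd⟩

end Pool.Agent.Results.MP_9d0418_gt.Grp
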